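import Pool.Agent.W217.RS.All
import Pool.Agent.W217.RS.FinA
import Pool.Agent.W217.RS.Ans
import Pool.Agent.W217.RS.P.SBALL
import Pool.Agent.W217.RS.P.ELO
import Pool.Agent.W217.RS.P.NOSP
import Pool.Agent.W217.RS.P.RESA
import Pool.Agent.W217.RS.P.DISCM
import Pool.Agent.W217.RS.P.LIMD
import Pool.Agent.W217.RS.P.FIND

set_option autoImplicit false

/-!
# Random linear systems can be solved with `n ^ 2 * polylog (n / ε)` exact arithmetic operations

The model (`Pool.Agent.W217.RS.Defs`): programs with counters and arrays of real numbers; every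
arithmetic operation and every comparison of real numbers, and every operation on counters, counts.

Idea of the algorithm: after rounding (by comparisons) the entries to integers with
`O(log (n κ / ε))` bits, the rows of a matrix are packed into single numbers, so that the product of
two matrices is obtained with `O(n ^ 2)` operations, and the entries of the product are extracted
with `O(n ^ 2 * log (n κ / ε))` comparisons. The inverse is computed by a rounded Newton iteration.
For the three ensembles the condition number is polynomial with probability tending to one.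
-/

namespace Pool.Agent.Results.MP_9b7f10_lc.AllEnsembles

open Pool.Agent.W217.RS

theorem two_rad {n : ℕ} (s : Fin n → Fin n → Bool) : two 0 1 s = rad s := by
  ext i j
  simp [two, rad, sg]

theorem two_ber {n : ℕ} (s : Fin n → Fin n → Bool) : two (1 / 2) (1 / 2) s = ber s := by
  ext i j
  by_cases h : s i j = true
  · simp [two, ber, sg, h]
    norm_num
  · simp [two, ber, sg, h]

theorem pr_mono {Ω : Type} [Fintype Ω] {p q : Ω → Prop} (h : ∀ s, p s → q s) : pr p ≤ pr q := by
  classical
  unfold pr
  apply div_le_div_of_nonneg_right _ (Nat.cast_nonneg _)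
  exact_mod_cast Finset.card_le_card (fun s hs => by
    simp only [Finset.mem_filter, Finset.mem_univ, true_and] at hs ⊢
    exact h s hs)

theorem pr_le_one {Ω : Type} [Fintype Ω] (p : Ω → Prop) : pr p ≤ 1 := by
  classical
  unfold pr
  apply div_le_one_of_le₀ _ (Nat.cast_nonneg _)
  exact_mod_cast Finset.card_le_univ _

theorem hFIND : FIND :=
  pFIND hSOLVE (pDISCM (pNOSP pSBALL) pELO pRESA pLOWT) pLIMD

theorem answer_two : Answer 2 := by
  refine ⟨pMain, ?_, ?_, ?_⟩
  · obtain ⟨E, C, k, h1, h2, h3⟩ := finA
    refine ⟨fun n => {M | (fun i j => M i j) ∈ E n}, C, k, h1, h2, ?_⟩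
    intro n A hA b ε hε hε1
    obtain ⟨t, m, h4, h5, h6⟩ := h3 n (fun i j => A i j) hA b ε hε hε1
    refine ⟨t, m, h4, ?_, h6⟩
    rw [Real.rpow_two]
    exact h5
  · obtain ⟨E, C, k, h1, h2⟩ := hFIND 0 1 one_pos (by norm_num)
    refine ⟨fun n => {M | ∃ s ∈ E n, M = rad s}, C, k, ?_, ?_⟩
    · refine tendsto_of_tendsto_of_tendsto_of_le_of_le h1 tendsto_const_nhds ?_ ?_
      · intro n
        exact pr_mono fun s hs => ⟨s, hs, rfl⟩
      · intro n
        exact pr_le_one _
    · rintro n A ⟨s, hs, rfl⟩ b ε hε hε1
      obtain ⟨t, m, h4, h5, h6⟩ := h2 n s hs b ε hε hε1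
      rw [two_rad] at h4 h6
      refine ⟨t, m, h4, ?_, h6⟩
      rw [Real.rpow_two]
      exact h5
  · obtain ⟨E, C, k, h1, h2⟩ := hFIND (1 / 2) (1 / 2) (by norm_num) (by norm_num [abs_of_pos])
    refine ⟨fun n => {M | ∃ s ∈ E n, M = ber s}, C, k, ?_, ?_⟩
    · refine tendsto_of_tendsto_of_tendsto_of_le_of_le h1 tendsto_const_nhds ?_ ?_
      · intro n
        exact pr_mono fun s hs => ⟨s, hs, rfl⟩
      · intro n
        exact pr_le_one _
    · rintro n A ⟨s, hs, rfl⟩ b ε hε hε1
      obtain ⟨t, m, h4, h5, h6⟩ := h2 n s hs b ε hε hε1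
      rw [two_ber] at h4 h6
      refine ⟨t, m, h4, ?_, h6⟩
      rw [Real.rpow_two]
      exact h5

/-- For each of the three ensembles, one program solves random linear systems with
`C * n ^ 2 * log (n / ε) ^ k` operations; if `ω > 2` this is `C * n ^ (ω - δ) * log (n / ε) ^ k`
with `δ = ω - 2 > 0`. -/
theorem result : Answer 2 ∧ (2 < omega → ∃ δ : ℝ, 0 < δ ∧ Answer (omega - δ)) :=
  ⟨answer_two, fun h => ⟨omega - 2, by linarith, by
    rw [show omega - (omega - 2) = (2 : ℝ) by ring]
    exact answer_two⟩⟩

end Pool.Agent.Results.MP_9b7f10_lc.AllEnsembles
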